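import Pool.Agent.H791.GBC.Main

/-!
# Question Q2: there is no outer minimizing horizon for the total scalar curvature

Let `n = k + 1 ≥ 4` and let `g` be a smooth Riemannian metric on the end `{|x| > r₀}` of `ℝ^n`,
asymptotically flat of some order `τ > 0`. The theorem below gives, for every real number `I`,
closed hypersurfaces of the end, arbitrarily far out and as `C¹`-close to round coordinate spheres
as desired, with total scalar curvature `∫ R` less than `I`. They are star-shaped, hence embedded
spheres, and enclose every given bounded part of the manifold.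

Matching with the problem file: `M` is, outside a compact set, the end `{|x| > r₀}` with metric `g`;
if `Σ` is any closed hypersurface of `M` (in particular the boundary), then for `R` large
the hypersurfaces below enclose `Σ`, and with `I = ∫_Σ R` they have a smaller value of `∫ R`. So no
`Σ` has the property that no hypersurface enclosing it has a smaller value of `∫ R`. The
hypothesis of Q2 is never satisfied, for any metric (no condition on `L₂` and any order `τ > 0`)
and already when only hypersurfaces `C¹`-close to large coordinate spheres are admitted.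
-/

namespace Pool.Agent.Results.MP_a8efab_gt.NoOuterMinimizer

open MeasureTheory Pool.Agent.H791.GBC

/-- In an asymptotically flat end of dimension `n = k + 1 ≥ 4` the total scalar curvature `∫_S R`
is not bounded below on the closed star-shaped hypersurfaces `S = {ρ(x) x : |x| = 1}` which enclose
a given bounded set, even on those `C¹`-close to large coordinate spheres. -/
theorem result {k : ℕ} (hk : 3 ≤ k) (g : Met (k + 1)) (r₀ τ : ℝ) (hτ : 0 < τ)
    (hg : IsRiemannianOn g {x | r₀ < nrm x}) (hAF : IsAsymptoticallyFlat g τ)
    (I R ε : ℝ) (hε : 0 < ε) :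
    ∃ (ρ : V (k + 1) → ℝ) (lam : ℝ), ContDiff ℝ (⊤ : ℕ∞) ρ ∧ R < lam ∧
      (∀ x, 0 < ρ x ∧ r₀ < ρ x ∧ R < ρ x ∧ |ρ x - lam| < ε * lam) ∧
      (∀ x, nrm x = 1 → ∀ i, |pd i ρ x| < ε * lam) ∧
      (∀ s : ℝ, s = 1 ∨ s = -1 →
        IntegrableOn (fun y : V k => scalDensity (induced g (starParam ρ s)) y)
          {y : V k | ∑ i, y i ^ 2 ≤ 1}) ∧
      totalScal g ρ < I := by
  obtain ⟨l, rfl⟩ : ∃ l, k = l + 3 := ⟨k - 3, by omega⟩
  exact main g r₀ τ hτ hg hAF I R ε hε

end Pool.Agent.Results.MP_a8efab_gt.NoOuterMinimizer
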